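import Mathlib

/-!
Linear algebra for the certificate lower bound: the Frobenius rank inequality in the case of a
zero product, and the dimension count behind the first order obstruction.
-/

open Matrix Module

namespace Pool.Agent.V7H90.RK

section lin

set_option linter.unusedSectionVars false

variable {K : Type*} [Field K] {I J τ υ : Type*} [Fintype I] [Fintype J] [Fintype τ] [Fintype υ]

/-- Frobenius inequality when the triple product vanishes. -/
theorem rank_add_rank_le (U : Matrix I τ K) (M : Matrix τ υ K) (V : Matrix υ J K)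
    (h : U * M * V = 0) : (U * M).rank + (M * V).rank ≤ M.rank := by
  classical
  set P : Submodule K (τ → K) := LinearMap.range M.mulVecLin with hP
  set f : P →ₗ[K] (I → K) := U.mulVecLin.domRestrict P with hf
  have h1 : finrank K (LinearMap.range f) + finrank K (LinearMap.ker f) = finrank K P :=
    LinearMap.finrank_range_add_finrank_ker f
  have h2 : LinearMap.range f = LinearMap.range (U * M).mulVecLin := by
    apply le_antisymm
    · rintro x ⟨⟨y, ⟨z, hz⟩⟩, rfl⟩
      refine ⟨z, ?_⟩
      subst hz
      simp [hf, mulVec_mulVec]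
    · rintro x ⟨z, rfl⟩
      refine ⟨⟨M *ᵥ z, ⟨z, rfl⟩⟩, ?_⟩
      simp [hf, mulVec_mulVec]
  have h3 : finrank K (LinearMap.range (M * V).mulVecLin) ≤ finrank K (LinearMap.ker f) := by
    have hle : LinearMap.range (M * V).mulVecLin ≤ (LinearMap.ker f).map P.subtype := by
      rintro x ⟨z, rfl⟩
      refine ⟨⟨M *ᵥ (V *ᵥ z), ⟨V *ᵥ z, rfl⟩⟩, ?_, ?_⟩
      · simp only [SetLike.mem_coe, LinearMap.mem_ker, hf, LinearMap.domRestrict_apply,
          mulVecLin_apply, mulVec_mulVec]
        rw [← Matrix.mul_assoc, h, zero_mulVec]
      · simp [mulVec_mulVec]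
    calc finrank K (LinearMap.range (M * V).mulVecLin)
        ≤ finrank K ((LinearMap.ker f).map P.subtype) := Submodule.finrank_mono hle
      _ = finrank K (LinearMap.ker f) := by
        exact (LinearEquiv.finrank_eq (Submodule.equivMapOfInjective _
          (Submodule.injective_subtype P) _)).symm
  rw [h2] at h1
  have e1 : (U * M).rank = finrank K (LinearMap.range (U * M).mulVecLin) := rfl
  have e2 : (M * V).rank = finrank K (LinearMap.range (M * V).mulVecLin) := rfl
  have e3 : M.rank = finrank K P := rfl
  omega

/-- rank plus dimension of the kernel. -/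
theorem rank_add_ker (A : Matrix τ J K) :
    A.rank + finrank K (LinearMap.ker A.mulVecLin) = Fintype.card J := by
  have := LinearMap.finrank_range_add_finrank_ker A.mulVecLin
  rw [finrank_fintype_fun_eq_card] at this
  exact this

/-- rank plus dimension of the left kernel. -/
theorem rank_add_lker (A : Matrix I τ K) :
    A.rank + finrank K (LinearMap.ker A.vecMulLinear) = Fintype.card I := by
  have := rank_add_ker (Aᵀ)
  rw [rank_transpose] at this
  rwa [Matrix.mulVecLin_transpose] at this

/-- The dimension count.  If `U M V = 0`, the rows of `U` and the columns of `V` are independent,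
and every vector of (row space of `U`) ∩ (left kernel of `M`) is parallel to every vector of
(column space of `V`) ∩ (kernel of `M`), where the kernel of `M` has dimension at least two, then
`|I| + |J| ≤ |τ|`. -/
theorem count (U : Matrix I τ K) (M : Matrix τ τ K) (V : Matrix τ J K)
    (h : U * M * V = 0)
    (hU : Function.Injective U.vecMulLinear) (hV : Function.Injective V.mulVecLin)
    (hM : M.rank + 2 ≤ Fintype.card τ)
    (hpar : ∀ α : I → K, ∀ β : J → K, (α ᵥ* U) ᵥ* M = 0 → M *ᵥ (V *ᵥ β) = 0 →
      ∀ i j, (α ᵥ* U) i * (V *ᵥ β) j = (α ᵥ* U) j * (V *ᵥ β) i) :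
    Fintype.card I + Fintype.card J ≤ Fintype.card τ := by
  classical
  have h1 := rank_add_rank_le U M V h
  have h2 := rank_add_lker (U * M)
  have h3 := rank_add_ker (M * V)
  have h4 := rank_add_ker M
  have h5 := rank_add_lker M
  set A := LinearMap.ker (U * M).vecMulLinear with hA
  set B := LinearMap.ker (M * V).mulVecLin with hB
  have memA : ∀ α : I → K, α ∈ A ↔ (α ᵥ* U) ᵥ* M = 0 := by
    intro α
    simp [hA, LinearMap.mem_ker, vecMul_vecMul]
  have memB : ∀ β : J → K, β ∈ B ↔ M *ᵥ (V *ᵥ β) = 0 := by
    intro β
    simp [hB, LinearMap.mem_ker, mulVec_mulVec]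
  -- dimension of `A` is at most the one of the left kernel
  have hAle : finrank K A ≤ finrank K (LinearMap.ker M.vecMulLinear) := by
    have hle : A.map U.vecMulLinear ≤ LinearMap.ker M.vecMulLinear := by
      rintro x ⟨α, hα, rfl⟩
      have := (memA α).1 hα
      simpa [LinearMap.mem_ker] using this
    calc finrank K A = finrank K (A.map U.vecMulLinear) :=
          LinearEquiv.finrank_eq (Submodule.equivMapOfInjective _ hU _)
      _ ≤ _ := Submodule.finrank_mono hle
  have hBle : finrank K B ≤ finrank K (LinearMap.ker M.mulVecLin) := by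
    have hle : B.map V.mulVecLin ≤ LinearMap.ker M.mulVecLin := by
      rintro x ⟨β, hβ, rfl⟩
      have := (memB β).1 hβ
      simpa [LinearMap.mem_ker] using this
    calc finrank K B = finrank K (B.map V.mulVecLin) :=
          LinearEquiv.finrank_eq (Submodule.equivMapOfInjective _ hV _)
      _ ≤ _ := Submodule.finrank_mono hle
  by_cases hA0 : A = ⊥
  · have : finrank K A = 0 := by rw [hA0]; exact finrank_bot K _
    omega
  by_cases hB0 : B = ⊥
  · have : finrank K B = 0 := by rw [hB0]; exact finrank_bot K _
    omega
  obtain ⟨α, hαA, hα0⟩ := (Submodule.ne_bot_iff A).1 hA0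
  obtain ⟨β, hβB, hβ0⟩ := (Submodule.ne_bot_iff B).1 hB0
  have hy0 : α ᵥ* U ≠ 0 := by
    intro h0
    apply hα0
    apply hU
    simpa using h0
  have hz0 : V *ᵥ β ≠ 0 := by
    intro h0
    apply hβ0
    apply hV
    simpa using h0
  obtain ⟨p, hp⟩ := Function.ne_iff.1 hy0
  obtain ⟨q, hq⟩ := Function.ne_iff.1 hz0
  simp only [Pi.zero_apply] at hp hq
  -- `A` has dimension at most one
  have hA1 : finrank K A ≤ 1 := by
    have hle : A.map U.vecMulLinear ≤ Submodule.span K {V *ᵥ β} := by
      rintro x ⟨γ, hγ, rfl⟩
      rw [Submodule.mem_span_singleton]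
      refine ⟨(γ ᵥ* U) q / (V *ᵥ β) q, ?_⟩
      ext i
      have e := hpar γ β ((memA γ).1 hγ) ((memB β).1 hβB) i q
      simp only [Pi.smul_apply, smul_eq_mul, vecMulLinear_apply]
      field_simp
      linear_combination -e
    calc finrank K A = finrank K (A.map U.vecMulLinear) :=
          LinearEquiv.finrank_eq (Submodule.equivMapOfInjective _ hU _)
      _ ≤ finrank K (Submodule.span K {V *ᵥ β}) := Submodule.finrank_mono hle
      _ ≤ 1 := le_of_eq (finrank_span_singleton (by assumption))
  have hB1 : finrank K B ≤ 1 := by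
    have hle : B.map V.mulVecLin ≤ Submodule.span K {α ᵥ* U} := by
      rintro x ⟨γ, hγ, rfl⟩
      rw [Submodule.mem_span_singleton]
      refine ⟨(V *ᵥ γ) p / (α ᵥ* U) p, ?_⟩
      ext i
      have e := hpar α γ ((memA α).1 hαA) ((memB γ).1 hγ) i p
      simp only [Pi.smul_apply, smul_eq_mul, mulVecLin_apply]
      field_simp
      linear_combination e
    calc finrank K B = finrank K (B.map V.mulVecLin) :=
          LinearEquiv.finrank_eq (Submodule.equivMapOfInjective _ hV _)
      _ ≤ finrank K (Submodule.span K {α ᵥ* U}) := Submodule.finrank_mono hle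
      _ ≤ 1 := le_of_eq (finrank_span_singleton (by assumption))
  omega

end lin

end Pool.Agent.V7H90.RK
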