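import Pool.Agent.V7H90.RK.Sparse
import Pool.Agent.V7H90.RK.Lin

/-!
The first order obstruction: a certificate for the generic alternating matrix of order `2 r + 3`
needs a denominator which vanishes on all alternating matrices of rank at most `2 r`.
-/

open MvPolynomial Matrix

namespace Pool.Agent.V7H90.RK

section dual

variable {K : Type*} [Field K] {ι κ μ : Type*} [Fintype κ]

theorem map_fst_mul (X : Matrix ι κ (DualNumber K)) (Y : Matrix κ μ (DualNumber K)) :
    (X * Y).map TrivSqZeroExt.fst = X.map TrivSqZeroExt.fst * Y.map TrivSqZeroExt.fst := by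
  ext i j
  simp [Matrix.mul_apply, TrivSqZeroExt.fst_sum]

theorem map_snd_mul (X : Matrix ι κ (DualNumber K)) (Y : Matrix κ μ (DualNumber K)) :
    (X * Y).map TrivSqZeroExt.snd = X.map TrivSqZeroExt.fst * Y.map TrivSqZeroExt.snd +
      X.map TrivSqZeroExt.snd * Y.map TrivSqZeroExt.fst := by
  ext i j
  simp [Matrix.mul_apply, TrivSqZeroExt.snd_sum, Finset.sum_add_distrib, mul_comm]

end dual

section rankbound

variable {K : Type*} [Field K]

theorem sel_vecMul {τ : Type*} [Fintype τ] [DecidableEq τ] {I : Finset τ} (α : I → K) (i : I) :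
    (α ᵥ* (1 : Matrix τ τ K).submatrix (fun i : I => i.1) id) i.1 = α i := by
  classical
  change ∑ x : I, α x * (1 : Matrix τ τ K) x.1 i.1 = α i
  rw [Finset.sum_eq_single i]
  · rw [one_apply_eq, mul_one]
  · intro b _ hb
    have : b.1 ≠ i.1 := fun h => hb (Subtype.ext h)
    rw [one_apply_ne this, mul_zero]
  · intro h
    exact absurd (Finset.mem_univ i) h

theorem sel_mulVec {τ : Type*} [Fintype τ] [DecidableEq τ] {I : Finset τ} (α : I → K) (i : I) :
    ((1 : Matrix τ τ K).submatrix id (fun i : I => i.1) *ᵥ α) i.1 = α i := by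
  classical
  change ∑ x : I, (1 : Matrix τ τ K) i.1 x.1 * α x = α i
  rw [Finset.sum_eq_single i]
  · rw [one_apply_eq, one_mul]
  · intro b _ hb
    have : i.1 ≠ b.1 := fun h => hb (Subtype.ext h.symm)
    rw [one_apply_ne this, zero_mul]
  · intro h
    exact absurd (Finset.mem_univ i) h

/-- The alternating matrix `Σ_t (c_t d_tᵀ - d_t c_tᵀ)`. -/
theorem rank_wedge_le {n r k : ℕ} (c d : Fin r → Fin n → K) (A : Matrix (Fin n) (Fin n) K)
    (hA : ∀ i j, A i j = ∑ t, (c t i * d t j - c t j * d t i)) :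
    (fromBlocks A 0 0 1 : Matrix (Fin n ⊕ Fin k) (Fin n ⊕ Fin k) K).rank ≤ 2 * r + k := by
  have h1 : A = fromCols (Matrix.of c)ᵀ (-(Matrix.of d)ᵀ) *
      fromRows (Matrix.of d) (Matrix.of c) := by
    rw [fromCols_mul_fromRows]
    ext i j
    simp only [hA, Matrix.add_apply, Matrix.mul_apply, Matrix.transpose_apply, Matrix.of_apply,
      Matrix.neg_apply, ← Finset.sum_add_distrib]
    exact Finset.sum_congr rfl fun t _ => by ring
  have h2 : (fromBlocks A 0 0 1 : Matrix (Fin n ⊕ Fin k) (Fin n ⊕ Fin k) K) =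
      fromBlocks (fromCols (Matrix.of c)ᵀ (-(Matrix.of d)ᵀ)) 0 0 (1 : Matrix (Fin k) (Fin k) K) *
      fromBlocks (fromRows (Matrix.of d) (Matrix.of c)) 0 0 (1 : Matrix (Fin k) (Fin k) K) := by
    rw [fromBlocks_multiply]
    simp [← h1]
  rw [h2]
  refine (rank_mul_le_left _ _).trans ((rank_le_card_width _).trans ?_)
  simp
  omega

end rankbound

section main

universe u

variable {F : Type u} [Field F]

/-- Generic version. -/
theorem van_of_generic {n r : ℕ} {g : MvPolynomial (Prs n) F}
    (h : aeval (R := F) (wedgeSum (fun t i => (X (false, t, i) :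
      MvPolynomial (Bool × Fin r × Fin n) F)) (fun t i => X (true, t, i))) g = 0) : Van r g := by
  intro S _ _ c d
  set f : MvPolynomial (Bool × Fin r × Fin n) F →ₐ[F] S :=
    aeval (fun x => if x.1 = true then d x.2.1 x.2.2 else c x.2.1 x.2.2) with hf
  have h3 : f.comp (aeval (R := F) (wedgeSum (fun t i => (X (false, t, i) :
      MvPolynomial (Bool × Fin r × Fin n) F)) (fun t i => X (true, t, i)))) =
      aeval (R := F) (wedgeSum c d) := by
    apply MvPolynomial.algHom_ext
    intro p
    simp [wedgeSum, hf]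
  have h4 := DFunLike.congr_fun h3 g
  rw [← h4, AlgHom.comp_apply, h, map_zero]

/-- The derivative of the generic alternating matrix (with identity block) in direction `q`. -/
theorem snd_entries {K : Type*} [Field K] [Algebra F K] {n k : ℕ} (w : Prs n → K) (q : Prs n) :
    ((fromBlocks (genSkew F n) 0 0 1 :
      Matrix (Fin n ⊕ Fin k) (Fin n ⊕ Fin k) (MvPolynomial (Prs n) F)).map
      (aeval (R := F) (fun p => (TrivSqZeroExt.inl (w p) : DualNumber K) +
        if p = q then DualNumber.eps else 0))).map TrivSqZeroExt.snd =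
    Matrix.single (Sum.inl q.1.1) (Sum.inl q.1.2) 1 -
      Matrix.single (Sum.inl q.1.2) (Sum.inl q.1.1) 1 := by
  obtain ⟨⟨a, b⟩, hab⟩ := q
  have hab' : a < b := hab
  ext s t
  rcases s with s | s <;> rcases t with t | t
  · simp only [map_apply, fromBlocks_apply₁₁, genSkew, of_apply, Matrix.sub_apply, single_apply,
      Sum.inl.injEq]
    rcases lt_trichotomy s t with h | h | h
    · rw [dif_pos h, aeval_X]
      by_cases h1 : s = a ∧ t = b
      · obtain ⟨rfl, rfl⟩ := h1
        have h2 : ¬ (t = s ∧ s = t) := fun h2 => h.ne h2.2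
        simp [h.ne', h.ne]
      · have h2 : ¬ (⟨(s, t), h⟩ : Prs n) = ⟨(a, b), hab⟩ := by
          intro h2
          simp only [Subtype.mk.injEq, Prod.mk.injEq] at h2
          exact h1 h2
        have h3 : ¬ (b = s ∧ a = t) := by
          rintro ⟨rfl, rfl⟩
          exact absurd h (not_lt.2 hab'.le)
        have h4 : ¬ (a = s ∧ b = t) := fun h4 => h1 ⟨h4.1.symm, h4.2.symm⟩
        simp [h2, h3, h4]
    · subst h
      have h3 : ¬ (b = s ∧ a = s) := by
        rintro ⟨rfl, rfl⟩
        exact absurd hab' (lt_irrefl _)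
      have h4 : ¬ (a = s ∧ b = s) := by
        rintro ⟨rfl, rfl⟩
        exact absurd hab' (lt_irrefl _)
      simp [h3, h4]
    · rw [dif_neg (not_lt.2 h.le), dif_pos h, map_neg, aeval_X]
      by_cases h1 : t = a ∧ s = b
      · obtain ⟨rfl, rfl⟩ := h1
        simp [h.ne', h.ne]
      · have h2 : ¬ (⟨(t, s), h⟩ : Prs n) = ⟨(a, b), hab⟩ := by
          intro h2
          simp only [Subtype.mk.injEq, Prod.mk.injEq] at h2
          exact h1 h2
        have h3 : ¬ (a = s ∧ b = t) := by
          rintro ⟨rfl, rfl⟩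
          exact absurd h (not_lt.2 hab'.le)
        have h4 : ¬ (b = s ∧ a = t) := fun h4 => h1 ⟨h4.2.symm, h4.1.symm⟩
        simp [h2, h3, h4]
  · simp
  · simp
  · by_cases h : s = t
    · subst h
      simp
    · simp [one_apply, h]

/-- The obstruction, over a field `K` with a point `(c, d)` at which no denominator vanishes. -/
theorem obstruction {K : Type*} [Field K] [Algebra F K] {n r k : ℕ} (hn : 2 * r + 2 ≤ n)
    (W : Submonoid (MvPolynomial (Prs n) F))
    (c d : Fin r → Fin n → K)
    (hW : ∀ g ∈ W, aeval (R := F) (wedgeSum c d) g ≠ 0) :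
    ¬ HasCert W k n (genSkew F n) := by
  classical
  rintro ⟨L, R, I, J, hz, hcard⟩
  unfold augment at hz
  set φ : MvPolynomial (Prs n) F →ₐ[F] K := aeval (R := F) (wedgeSum c d) with hφ
  set ψ : Prs n → (MvPolynomial (Prs n) F →ₐ[F] DualNumber K) := fun q =>
    aeval (R := F) (fun p => (TrivSqZeroExt.inl (wedgeSum c d p) : DualNumber K) +
      if p = q then DualNumber.eps else 0) with hψ
  have hfst : ∀ q g, (ψ q g).fst = φ g := by
    intro q g
    have : (TrivSqZeroExt.fstHom F K K).comp (ψ q) = φ := by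
      apply MvPolynomial.algHom_ext
      intro p
      simp only [hψ, hφ, AlgHom.comp_apply, aeval_X]
      split_ifs <;> simp
    exact DFunLike.congr_fun this g
  have hu0 : ∀ w : W, IsUnit ((φ : MvPolynomial (Prs n) F →+* K) w) := by
    intro w
    exact IsUnit.mk0 _ (hW w w.2)
  have hu : ∀ q, ∀ w : W, IsUnit ((ψ q : MvPolynomial (Prs n) F →+* DualNumber K) w) := by
    intro q w
    rw [TrivSqZeroExt.isUnit_iff_isUnit_fst]
    have := hu0 w
    simpa [hfst] using this
  set Φ0 : Localization W →+* K := IsLocalization.lift hu0 with hΦ0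
  set Φ : Prs n → (Localization W →+* DualNumber K) := fun q => IsLocalization.lift (hu q) with hΦ
  have hΦ0a : ∀ g, Φ0 (algebraMap _ _ g) = φ g := fun g => IsLocalization.lift_eq hu0 g
  have hΦa : ∀ q g, Φ q (algebraMap _ _ g) = ψ q g := fun q g => IsLocalization.lift_eq (hu q) g
  have hΦfst : ∀ q x, (Φ q x).fst = Φ0 x := by
    intro q x
    have : ((TrivSqZeroExt.fstHom F K K : DualNumber K →ₐ[F] K) : DualNumber K →+* K).comp (Φ q)
        = Φ0 := by
      apply IsLocalization.ringHom_ext W
      refine RingHom.ext fun g => ?_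
      simp [hΦa, hΦ0a, hfst]
    exact DFunLike.congr_fun this x
  set MP : Matrix (Fin n ⊕ Fin k) (Fin n ⊕ Fin k) (MvPolynomial (Prs n) F) :=
    fromBlocks (genSkew F n) 0 0 1 with hMP
  set L0 := (L.val).map Φ0 with hL0
  set L0' := (L⁻¹).val.map Φ0 with hL0'
  set R0 := (R.val).map Φ0 with hR0
  set R0' := (R⁻¹).val.map Φ0 with hR0'
  set M0 := MP.map φ with hM0
  have eL : L0 * L0' = 1 := by
    rw [hL0, hL0', ← Matrix.map_mul, ← Units.val_mul, mul_inv_cancel, Units.val_one]
    exact Matrix.map_one _ (map_zero _) (map_one _)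
  have eR : R0' * R0 = 1 := by
    rw [hR0, hR0', ← Matrix.map_mul, ← Units.val_mul, inv_mul_cancel, Units.val_one]
    exact Matrix.map_one _ (map_zero _) (map_one _)
  have key0 : L0 * M0 * R0 = (L.val * MP.map (algebraMap _ (Localization W)) * R.val).map Φ0 := by
    rw [Matrix.map_mul, Matrix.map_mul, Matrix.map_map]
    congr 2
    ext i j
    simp only [map_apply, hM0, Function.comp_apply]
    exact (hΦ0a _).symm
  have keyq : ∀ q, (L.val.map (Φ q)) * (MP.map (ψ q)) * (R.val.map (Φ q)) =
      (L.val * MP.map (algebraMap _ (Localization W)) * R.val).map (Φ q) := by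
    intro q
    rw [Matrix.map_mul, Matrix.map_mul, Matrix.map_map]
    congr 2
    ext1 i j
    simp only [map_apply, Function.comp_apply]
    exact (hΦa q _).symm
  set U : Matrix I (Fin n ⊕ Fin k) K := L0.submatrix (fun i => i.1) id with hU
  set V : Matrix (Fin n ⊕ Fin k) J K := R0.submatrix id (fun j => j.1) with hV
  have hUMV : U * M0 * V = 0 := by
    ext i j
    have h1 : (U * M0 * V) i j = (L0 * M0 * R0) i.1 j.1 := rfl
    rw [h1, key0, map_apply, hz i.1 i.2 j.1 j.2, map_zero]
    rfl
  have hUinj : Function.Injective U.vecMulLinear := by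
    intro α α' h
    have h1 : (α ᵥ* U) ᵥ* L0' = (α' ᵥ* U) ᵥ* L0' := by
      have : α ᵥ* U = α' ᵥ* U := h
      rw [this]
    have h2 : U * L0' = (1 : Matrix (Fin n ⊕ Fin k) (Fin n ⊕ Fin k) K).submatrix
        (fun i : I => i.1) id := by
      rw [← eL]
      rfl
    rw [vecMul_vecMul, vecMul_vecMul, h2] at h1
    funext i
    have h3 := congrFun h1 i.1
    rwa [sel_vecMul, sel_vecMul] at h3
  have hVinj : Function.Injective V.mulVecLin := by
    intro β β' h
    have h1 : R0' *ᵥ (V *ᵥ β) = R0' *ᵥ (V *ᵥ β') := by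
      have : V *ᵥ β = V *ᵥ β' := h
      rw [this]
    have h2 : R0' * V = (1 : Matrix (Fin n ⊕ Fin k) (Fin n ⊕ Fin k) K).submatrix
        id (fun j : J => j.1) := by
      rw [← eR]
      rfl
    rw [mulVec_mulVec, mulVec_mulVec, h2] at h1
    funext j
    have h3 := congrFun h1 j.1
    rwa [sel_mulVec, sel_mulVec] at h3
  have hA : ∀ i j, (genSkew F n).map φ i j = ∑ t, (c t i * d t j - c t j * d t i) := by
    intro i j
    simp only [map_apply, genSkew, of_apply]
    rcases lt_trichotomy i j with h | h | h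
    · rw [dif_pos h, hφ, aeval_X]
      rfl
    · subst h
      simp
    · rw [dif_neg (not_lt.2 h.le), dif_pos h, map_neg, hφ, aeval_X, wedgeSum,
        ← Finset.sum_neg_distrib]
      exact Finset.sum_congr rfl fun t _ => by ring
  have hM0b : M0 = fromBlocks ((genSkew F n).map φ) 0 0 1 := by
    rw [hM0, hMP, fromBlocks_map, Matrix.map_zero _ (map_zero _), Matrix.map_zero _ (map_zero _),
      Matrix.map_one _ (map_zero _) (map_one _)]
  have hrank : M0.rank + 2 ≤ Fintype.card (Fin n ⊕ Fin k) := by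
    have := rank_wedge_le (k := k) c d _ hA
    rw [← hM0b] at this
    simp only [Fintype.card_sum, Fintype.card_fin]
    omega
  have hpar : ∀ α : I → K, ∀ β : J → K, (α ᵥ* U) ᵥ* M0 = 0 → M0 *ᵥ (V *ᵥ β) = 0 →
      ∀ i j, (α ᵥ* U) i * (V *ᵥ β) j = (α ᵥ* U) j * (V *ᵥ β) i := by
    intro α β hα hβ
    have hyr : ∀ l : Fin k, (α ᵥ* U) (Sum.inr l) = 0 := by
      intro l
      have h1 := congrFun hα (Sum.inr l)
      rw [hM0b] at h1
      simpa [vecMul, dotProduct, one_apply] using h1
    have hzr : ∀ l : Fin k, (V *ᵥ β) (Sum.inr l) = 0 := by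
      intro l
      have h1 := congrFun hβ (Sum.inr l)
      rw [hM0b] at h1
      simpa [mulVec, dotProduct, one_apply] using h1
    have hmain : ∀ q : Prs n, (α ᵥ* U) (Sum.inl q.1.1) * (V *ᵥ β) (Sum.inl q.1.2) =
        (α ᵥ* U) (Sum.inl q.1.2) * (V *ᵥ β) (Sum.inl q.1.1) := by
      intro q
      set L1 := (L.val.map (Φ q)).map TrivSqZeroExt.snd with hL1
      set R1 := (R.val.map (Φ q)).map TrivSqZeroExt.snd with hR1
      set M1 := (MP.map (ψ q)).map TrivSqZeroExt.snd with hM1
      have f1 : (L.val.map (Φ q)).map TrivSqZeroExt.fst = L0 := by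
        ext i j
        simp only [map_apply, hL0]
        exact hΦfst q _
      have f2 : (R.val.map (Φ q)).map TrivSqZeroExt.fst = R0 := by
        ext i j
        simp only [map_apply, hR0]
        exact hΦfst q _
      have f3 : (MP.map (ψ q)).map TrivSqZeroExt.fst = M0 := by
        ext i j
        simp only [map_apply, hM0]
        exact hfst q _
      have g1 : ((L.val.map (Φ q)) * (MP.map (ψ q)) * (R.val.map (Φ q))).map TrivSqZeroExt.snd =
          L0 * M0 * R1 + (L0 * M1 + L1 * M0) * R0 := by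
        rw [map_snd_mul, map_fst_mul, map_snd_mul, f1, f2, f3]
      set U1 : Matrix I (Fin n ⊕ Fin k) K := L1.submatrix (fun i => i.1) id with hU1
      set V1 : Matrix (Fin n ⊕ Fin k) J K := R1.submatrix id (fun j => j.1) with hV1
      have g2 : U * M0 * V1 + (U * M1 + U1 * M0) * V = 0 := by
        ext i j
        have h1 : (U * M0 * V1 + (U * M1 + U1 * M0) * V) i j =
          (L0 * M0 * R1 + (L0 * M1 + L1 * M0) * R0) i.1 j.1 := rfl
        rw [h1, ← g1, keyq q, map_apply, map_apply, hz i.1 i.2 j.1 j.2, map_zero]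
        rfl
      have g3 : (α ᵥ* U) ⬝ᵥ (M1 *ᵥ (V *ᵥ β)) = 0 := by
        have h1 : α ⬝ᵥ ((U * M0 * V1 + (U * M1 + U1 * M0) * V) *ᵥ β) = 0 := by
          rw [g2, zero_mulVec, dotProduct_zero]
        rw [add_mulVec, Matrix.add_mul, add_mulVec, dotProduct_add, dotProduct_add] at h1
        have h2 : α ⬝ᵥ ((U * M0 * V1) *ᵥ β) = 0 := by
          rw [dotProduct_mulVec, ← vecMul_vecMul, ← vecMul_vecMul, hα, zero_vecMul,
            zero_dotProduct]
        have h3 : α ⬝ᵥ ((U1 * M0 * V) *ᵥ β) = 0 := by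
          rw [Matrix.mul_assoc, ← mulVec_mulVec, ← mulVec_mulVec, hβ, mulVec_zero,
            dotProduct_zero]
        have h4 : α ⬝ᵥ ((U * M1 * V) *ᵥ β) = (α ᵥ* U) ⬝ᵥ (M1 *ᵥ (V *ᵥ β)) := by
          rw [Matrix.mul_assoc, ← mulVec_mulVec, ← mulVec_mulVec, dotProduct_mulVec]
        rw [h2, h3, h4] at h1
        simpa using h1
      have g4 : M1 = Matrix.single (Sum.inl q.1.1) (Sum.inl q.1.2) 1 -
          Matrix.single (Sum.inl q.1.2) (Sum.inl q.1.1) 1 := snd_entries _ q
      rw [g4, sub_mulVec, dotProduct_sub] at g3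
      simp only [single_mulVec, one_mul] at g3
      rw [sub_eq_zero] at g3
      simpa [dotProduct, Function.update_apply, Pi.single_apply] using g3
    intro i j
    rcases i with i | i
    · rcases j with j | j
      · rcases lt_trichotomy i j with h | h | h
        · exact hmain ⟨(i, j), h⟩
        · subst h; ring
        · have := hmain ⟨(j, i), h⟩
          exact this.symm
      · rw [hyr, hzr]; ring
    · rw [hyr, hzr]; ring
  have := count U M0 V hUMV hUinj hVinj hrank hpar
  simp only [Fintype.card_coe, Fintype.card_sum, Fintype.card_fin] at this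
  omega

end main

end Pool.Agent.V7H90.RK
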