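import Mathlib

/-!
# Elimination certificates for upper bounds on the rank of a polynomial matrix

Definitions for the problem of Edmonds (RANK in co-NP).
-/

open MvPolynomial Matrix

namespace Pool.Agent.V7H90.RK

/-- The index set of the variables of the generic alternating matrix of order `n`: pairs `i < j`. -/
abbrev Prs (n : ℕ) : Type := {p : Fin n × Fin n // p.1 < p.2}

/-- The generic alternating (skew-symmetric) matrix of order `n` over `F`: the entry `(i, j)` is the
variable `x_ij` for `i < j`, it is `-x_ji` for `j < i`, and it is `0` for `i = j`. -/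
noncomputable def genSkew (F : Type*) [CommRing F] (n : ℕ) :
    Matrix (Fin n) (Fin n) (MvPolynomial (Prs n) F) :=
  Matrix.of fun i j =>
    if h : i < j then X ⟨(i, j), h⟩ else if h' : j < i then -X ⟨(j, i), h'⟩ else 0

/-- The rank of a polynomial matrix over the field of rational functions. -/
noncomputable def polyRank {F : Type*} [Field F] {σ : Type*} {a b : ℕ}
    (M : Matrix (Fin a) (Fin b) (MvPolynomial σ F)) : ℕ :=
  (M.map (algebraMap (MvPolynomial σ F) (FractionRing (MvPolynomial σ F)))).rank

/-- The matrix `M ⊕ 1_k` over the ring of fractions `W⁻¹ F[x]`. -/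
noncomputable def augment {F : Type*} [Field F] {σ : Type*} (W : Submonoid (MvPolynomial σ F))
    (k : ℕ) {a b : ℕ} (M : Matrix (Fin a) (Fin b) (MvPolynomial σ F)) :
    Matrix (Fin a ⊕ Fin k) (Fin b ⊕ Fin k) (Localization W) :=
  (fromBlocks M 0 0 1).map (algebraMap (MvPolynomial σ F) (Localization W))

/-- A (zero-block) elimination certificate, with denominators in the multiplicative set `W` of
polynomials and with `k` auxiliary rows and columns, for the claim that the rank of the `a × b`
polynomial matrix `M` is less than `r`: invertible square matrices `L`, `R` over the ring of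
fractions `W⁻¹ F[x]` such that `L (M ⊕ 1_k) R` has an `I × J` block of zeros with
`|I| + |J| + r > a + b + k`. -/
def HasCert {F : Type*} [Field F] {σ : Type*} (W : Submonoid (MvPolynomial σ F)) (k r : ℕ)
    {a b : ℕ} (M : Matrix (Fin a) (Fin b) (MvPolynomial σ F)) : Prop :=
  ∃ (L : (Matrix (Fin a ⊕ Fin k) (Fin a ⊕ Fin k) (Localization W))ˣ)
    (R : (Matrix (Fin b ⊕ Fin k) (Fin b ⊕ Fin k) (Localization W))ˣ)
    (I : Finset (Fin a ⊕ Fin k)) (J : Finset (Fin b ⊕ Fin k)),
    (∀ i ∈ I, ∀ j ∈ J, (L.val * augment W k M * R.val) i j = 0) ∧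
    a + b + k < I.card + J.card + r

/-- The allowed denominators of sparsity `s`: all products of nonzero polynomials each of which has
at most `s` monomials. -/
noncomputable def sparseDen (F : Type*) [Field F] (σ : Type*) (s : ℕ) : Submonoid (MvPolynomial σ F) :=
  Submonoid.closure {g | g ≠ 0 ∧ g.support.card ≤ s}

/-- The allowed denominators of degree `d`: all products of nonzero polynomials each of which has
total degree at most `d`. -/
noncomputable def degreeDen (F : Type*) [Field F] (σ : Type*) (d : ℕ) : Submonoid (MvPolynomial σ F) :=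
  Submonoid.closure {g | g ≠ 0 ∧ g.totalDegree ≤ d}

/-- The entries of the alternating matrix `Σ_t (c_t d_tᵀ - d_t c_tᵀ)`. -/
def wedgeSum {S : Type*} [CommRing S] {n r : ℕ} (c d : Fin r → Fin n → S) (p : Prs n) : S :=
  ∑ t, (c t p.1.1 * d t p.1.2 - c t p.1.2 * d t p.1.1)

/-- `g` vanishes identically on the alternating matrices `Σ_{t < r} (c_t d_tᵀ - d_t c_tᵀ)` (over
all commutative `F`-algebras, equivalently at the generic such matrix); these are matrices of rank
at most `2 r`. -/
def Van.{u} {F : Type u} [Field F] {n : ℕ} (r : ℕ) (g : MvPolynomial (Prs n) F) : Prop :=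
  ∀ (S : Type u) [CommRing S] [Algebra F S] (c d : Fin r → Fin n → S),
    aeval (wedgeSum c d) g = 0

end Pool.Agent.V7H90.RK
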