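import Pool.Agent.V7H90.RK.Defs
import Pool.Agent.V7H90.RK.Lin

/-!
Soundness and completeness of the certificates, and the rank of the generic alternating matrix of
odd order.
-/

open MvPolynomial Matrix Module

namespace Pool.Agent.V7H90.RK

section field

variable {K : Type*} [Field K]

theorem zero_block_rank {τ υ : Type*} [Fintype τ] [Fintype υ] [DecidableEq τ] [DecidableEq υ]
    (X : Matrix τ υ K) (I : Finset τ) (J : Finset υ) (h : ∀ i ∈ I, ∀ j ∈ J, X i j = 0) :
    X.rank + I.card + J.card ≤ Fintype.card τ + Fintype.card υ := by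
  classical
  set P : Matrix τ ({i // i ∉ I} ⊕ {j // j ∉ J}) K := Matrix.of fun t =>
    Sum.elim (fun i => if t = i.1 then 1 else 0) (fun j => if t ∈ I then X t j.1 else 0) with hP
  set Q : Matrix ({i // i ∉ I} ⊕ {j // j ∉ J}) υ K := Matrix.of
    (Sum.elim (fun i u => X i.1 u) (fun j u => if j.1 = u then 1 else 0)) with hQ
  have hX : X = P * Q := by
    ext t u
    rw [Matrix.mul_apply, Fintype.sum_sum_type]
    simp only [hP, hQ, of_apply, Sum.elim_inl, Sum.elim_inr]
    by_cases ht : t ∈ I
    · have h1 : ∑ x : {i // i ∉ I}, (if t = x.1 then (1 : K) else 0) * X x.1 u = 0 := by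
        apply Finset.sum_eq_zero
        rintro ⟨x, hx⟩ _
        have : t ≠ x := fun h => hx (h ▸ ht)
        simp [this]
      rw [h1, zero_add]
      by_cases hu : u ∈ J
      · rw [h t ht u hu]
        symm
        apply Finset.sum_eq_zero
        rintro ⟨x, hx⟩ _
        have : x ≠ u := fun h => hx (h ▸ hu)
        simp [this]
      · rw [Finset.sum_eq_single (⟨u, hu⟩ : {j // j ∉ J})]
        · simp [ht]
        · intro b _ hb
          have : b.1 ≠ u := fun h => hb (Subtype.ext h)
          simp [this]
        · intro h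
          exact absurd (Finset.mem_univ _) h
    · have h1 : ∑ x : {j // j ∉ J}, (if t ∈ I then X t x.1 else 0) *
          (if x.1 = u then (1 : K) else 0) = 0 := by
        apply Finset.sum_eq_zero
        intro x _
        simp [ht]
      rw [h1, add_zero, Finset.sum_eq_single (⟨t, ht⟩ : {i // i ∉ I})]
      · simp
      · intro b _ hb
        have : t ≠ b.1 := fun h => hb (Subtype.ext h.symm)
        simp [this]
      · intro h
        exact absurd (Finset.mem_univ _) h
  have h1 : X.rank ≤ Fintype.card ({i // i ∉ I} ⊕ {j // j ∉ J}) := by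
    rw [hX]
    exact (rank_mul_le_left _ _).trans (rank_le_card_width _)
  rw [Fintype.card_sum] at h1
  have h2 : Fintype.card {i // i ∉ I} = Fintype.card τ - I.card := by
    rw [Fintype.card_subtype_compl, Fintype.card_coe]
  have h3 : Fintype.card {j // j ∉ J} = Fintype.card υ - J.card := by
    rw [Fintype.card_subtype_compl, Fintype.card_coe]
  have h4 := I.card_le_univ
  have h5 := J.card_le_univ
  omega

theorem rank_blocks {a b k : ℕ} (M : Matrix (Fin a) (Fin b) K) :
    (fromBlocks M 0 0 1 : Matrix (Fin a ⊕ Fin k) (Fin b ⊕ Fin k) K).rank = M.rank + k := by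
  classical
  set M' : Matrix (Fin a ⊕ Fin k) (Fin b ⊕ Fin k) K := fromBlocks M 0 0 1 with hM'
  have h1 := rank_add_ker M
  have h2 := rank_add_ker M'
  simp only [Fintype.card_fin, Fintype.card_sum] at h1 h2
  have h3 : finrank K (LinearMap.ker M'.mulVecLin) = finrank K (LinearMap.ker M.mulVecLin) := by
    apply LinearEquiv.finrank_eq
    refine LinearEquiv.ofBijective
      (LinearMap.codRestrict _ ((LinearMap.funLeft K K (Sum.inl : Fin b → Fin b ⊕ Fin k)).comp
        (LinearMap.ker M'.mulVecLin).subtype) ?_) ⟨?_, ?_⟩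
    · rintro ⟨v, hv⟩
      rw [LinearMap.mem_ker] at hv ⊢
      ext i
      have := congrFun hv (Sum.inl i)
      simpa [hM', mulVec, dotProduct, Fintype.sum_sum_type] using this
    · rintro ⟨v, hv⟩ ⟨w, hw⟩ h
      rw [LinearMap.mem_ker] at hv hw
      have h0 := congrArg Subtype.val h
      apply Subtype.ext
      funext i
      rcases i with i | i
      · exact congrFun h0 i
      · have e1 := congrFun hv (Sum.inr i)
        have e2 := congrFun hw (Sum.inr i)
        have e1' : v (Sum.inr i) = 0 := by
          simpa [hM', mulVec, dotProduct, Fintype.sum_sum_type, one_apply] using e1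
        have e2' : w (Sum.inr i) = 0 := by
          simpa [hM', mulVec, dotProduct, Fintype.sum_sum_type, one_apply] using e2
        exact e1'.trans e2'.symm
    · rintro ⟨v, hv⟩
      rw [LinearMap.mem_ker] at hv
      refine ⟨⟨Sum.elim v 0, ?_⟩, ?_⟩
      · rw [LinearMap.mem_ker]
        ext i
        rcases i with i | i
        · have := congrFun hv i
          simpa [hM', mulVec, dotProduct, Fintype.sum_sum_type] using this
        · simp [hM', mulVec, dotProduct, Fintype.sum_sum_type]
      · apply Subtype.ext
        funext i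
        rfl
  omega

end field

section poly

variable {F : Type*} [Field F] {σ : Type*}

/-- The embedding of the ring of fractions into the field of rational functions. -/
noncomputable def emb (W : Submonoid (MvPolynomial σ F)) (hW : (0 : MvPolynomial σ F) ∉ W) :
    Localization W →+* FractionRing (MvPolynomial σ F) :=
  IsLocalization.lift (M := W)
    (g := algebraMap (MvPolynomial σ F) (FractionRing (MvPolynomial σ F))) (by
      intro w
      apply IsUnit.mk0
      intro h
      have h1 := (IsFractionRing.injective (MvPolynomial σ F)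
        (FractionRing (MvPolynomial σ F))) (h.trans (map_zero _).symm)
      exact hW (h1 ▸ w.2))

theorem emb_algebraMap (W : Submonoid (MvPolynomial σ F)) (hW : (0 : MvPolynomial σ F) ∉ W)
    (g : MvPolynomial σ F) : emb W hW (algebraMap _ _ g) = algebraMap _ _ g :=
  IsLocalization.lift_eq _ g

theorem emb_injective (W : Submonoid (MvPolynomial σ F)) (hW : (0 : MvPolynomial σ F) ∉ W) :
    Function.Injective (emb W hW) := by
  unfold emb
  rw [IsLocalization.lift_injective_iff]
  intro x y
  have h1 : Function.Injective (algebraMap (MvPolynomial σ F) (Localization W)) := by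
    apply IsLocalization.injective (Localization W) (M := W)
    intro w hw
    exact mem_nonZeroDivisors_of_ne_zero fun h => hW (h ▸ hw)
  have h2 := IsFractionRing.injective (MvPolynomial σ F) (FractionRing (MvPolynomial σ F))
  exact ⟨fun h => congrArg _ (h1 h), fun h => congrArg _ (h2 h)⟩

/-- Soundness: a certificate proves the upper bound on the rank. -/
theorem sound {W : Submonoid (MvPolynomial σ F)} (hW : (0 : MvPolynomial σ F) ∉ W) {k r a b : ℕ}
    (M : Matrix (Fin a) (Fin b) (MvPolynomial σ F)) (h : HasCert W k r M) :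
    polyRank M < r := by
  unfold polyRank
  classical
  obtain ⟨L, R, I, J, hz, hcard⟩ := h
  unfold augment at hz
  set Φ := emb W hW with hΦ
  set M0 := (fromBlocks M 0 0 1 : Matrix (Fin a ⊕ Fin k) (Fin b ⊕ Fin k)
    (MvPolynomial σ F)).map (algebraMap _ (FractionRing (MvPolynomial σ F))) with hM0
  have hM0b : M0 = fromBlocks (M.map (algebraMap _ (FractionRing (MvPolynomial σ F)))) 0 0 1 := by
    rw [hM0, fromBlocks_map, Matrix.map_zero _ (map_zero _), Matrix.map_zero _ (map_zero _),
      Matrix.map_one _ (map_zero _) (map_one _)]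
  have key : (L.val.map Φ) * M0 * (R.val.map Φ) =
      (L.val * (fromBlocks M 0 0 1 : Matrix (Fin a ⊕ Fin k) (Fin b ⊕ Fin k)
        (MvPolynomial σ F)).map (algebraMap _ (Localization W)) * R.val).map Φ := by
    rw [Matrix.map_mul, Matrix.map_mul, Matrix.map_map]
    congr 2
    ext1 i j
    simp only [hM0, map_apply, Function.comp_apply]
    exact (emb_algebraMap W hW _).symm
  have hLu : IsUnit (L.val.map Φ) := by
    have := L.isUnit.map (Φ.mapMatrix (m := Fin a ⊕ Fin k))
    exact this
  have hRu : IsUnit (R.val.map Φ) := by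
    have := R.isUnit.map (Φ.mapMatrix (m := Fin b ⊕ Fin k))
    exact this
  have hr : ((L.val.map Φ) * M0 * (R.val.map Φ)).rank = M0.rank := by
    rw [rank_mul_eq_left_of_isUnit_det _ _ ((isUnit_iff_isUnit_det _).1 hRu),
      rank_mul_eq_right_of_isUnit_det _ _ ((isUnit_iff_isUnit_det _).1 hLu)]
  have hb := zero_block_rank ((L.val.map Φ) * M0 * (R.val.map Φ)) I J (by
    intro i hi j hj
    rw [key, map_apply, hz i hi j hj, map_zero])
  rw [hr, hM0b, rank_blocks] at hb
  simp only [Fintype.card_sum, Fintype.card_fin] at hb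
  omega

theorem zero_notMem_sparseDen (s : ℕ) : (0 : MvPolynomial σ F) ∉ sparseDen F σ s := by
  intro h
  have : ∀ g ∈ sparseDen F σ s, g ≠ 0 := by
    intro g hg
    induction hg using Submonoid.closure_induction with
    | mem x hx => exact hx.1
    | one => exact one_ne_zero
    | mul x y _ _ hx hy => exact mul_ne_zero hx hy
  exact this 0 h rfl

/-- Completeness: if the rank is less than `r` then there is a certificate without auxiliary rows,
for some sparsity. -/
theorem complete {r a b : ℕ} (M : Matrix (Fin a) (Fin b) (MvPolynomial σ F))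
    (h : polyRank M < r) :
    ∃ s, HasCert (sparseDen F σ s) 0 r M := by
  classical
  unfold polyRank at h
  set K := FractionRing (MvPolynomial σ F) with hK
  set M0 : Matrix (Fin a ⊕ Fin 0) (Fin b ⊕ Fin 0) K :=
    fromBlocks (M.map (algebraMap _ K)) 0 0 1 with hM0
  have hr : M0.rank < r := by
    rw [hM0, rank_blocks]
    exact h
  have hN := rank_add_lker M0
  set N := LinearMap.ker M0.vecMulLinear with hNdef
  obtain ⟨N', hNN'⟩ := Submodule.exists_isCompl N
  set B := ((finBasis K N).prod (finBasis K N')).map (Submodule.prodEquivOfIsCompl N N' hNN') with hB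
  have hcard : Fintype.card (Fin (finrank K N) ⊕ Fin (finrank K N')) =
      Fintype.card (Fin a ⊕ Fin 0) := by
    rw [← finrank_eq_card_basis B, finrank_fintype_fun_eq_card]
  set e := Fintype.equivOfCardEq hcard with he
  set B' := B.reindex e with hB'
  set L0 : Matrix (Fin a ⊕ Fin 0) (Fin a ⊕ Fin 0) K :=
    ((Pi.basisFun K (Fin a ⊕ Fin 0)).toMatrix B')ᵀ with hL0
  set L0' : Matrix (Fin a ⊕ Fin 0) (Fin a ⊕ Fin 0) K :=
    (B'.toMatrix (Pi.basisFun K (Fin a ⊕ Fin 0)))ᵀ with hL0'
  have e1 : L0 * L0' = 1 := by
    rw [hL0, hL0', ← transpose_mul, Basis.toMatrix_mul_toMatrix_flip, transpose_one]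
  have e2 : L0' * L0 = 1 := by
    rw [hL0, hL0', ← transpose_mul, Basis.toMatrix_mul_toMatrix_flip, transpose_one]
  have hrow : ∀ i : Fin (finrank K N), ∀ j, (L0 * M0) (e (Sum.inl i)) j = 0 := by
    intro i j
    have h1 : B' (e (Sum.inl i)) ∈ N := by
      rw [hB', Basis.reindex_apply, Equiv.symm_apply_apply, hB, Basis.map_apply]
      simp
    have h2 : B' (e (Sum.inl i)) ᵥ* M0 = 0 := h1
    have h3 := congrFun h2 j
    exact h3
  -- choose numerators and denominators
  have hfrac : ∀ z : K, ∃ fg : MvPolynomial σ F × MvPolynomial σ F,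
      fg.2 ≠ 0 ∧ z * algebraMap _ K fg.2 = algebraMap _ K fg.1 := by
    intro z
    obtain ⟨⟨f, g⟩, hfg⟩ := IsLocalization.surj (nonZeroDivisors (MvPolynomial σ F)) z
    exact ⟨(f, g.1), nonZeroDivisors.ne_zero g.2, hfg⟩
  choose fr hfr0 hfr using hfrac
  set s : ℕ := ∑ i, ∑ j, ((fr (L0 i j)).2.support.card + (fr (L0' i j)).2.support.card) with hs
  refine ⟨s, ?_⟩
  set W := sparseDen F σ s with hWdef
  have hW : (0 : MvPolynomial σ F) ∉ W := zero_notMem_sparseDen s
  have hle : ∀ i j, (fr (L0 i j)).2.support.card + (fr (L0' i j)).2.support.card ≤ s := by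
    intro i j
    calc _ ≤ ∑ j, ((fr (L0 i j)).2.support.card + (fr (L0' i j)).2.support.card) :=
          Finset.single_le_sum (f := fun j => (fr (L0 i j)).2.support.card +
            (fr (L0' i j)).2.support.card) (fun _ _ => Nat.zero_le _) (Finset.mem_univ j)
      _ ≤ s := Finset.single_le_sum (f := fun i => ∑ j, ((fr (L0 i j)).2.support.card +
            (fr (L0' i j)).2.support.card)) (fun _ _ => Nat.zero_le _) (Finset.mem_univ i)
  have hlift : ∀ z : K, (fr z).2.support.card ≤ s → ∃ x : Localization W, emb W hW x = z := by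
    intro z hz
    have hm : (fr z).2 ∈ W := Submonoid.subset_closure ⟨hfr0 z, hz⟩
    refine ⟨IsLocalization.mk' (Localization W) (fr z).1 ⟨(fr z).2, hm⟩, ?_⟩
    unfold emb
    rw [IsLocalization.lift_mk'_spec]
    rw [mul_comm]
    exact (hfr z).symm
  have hL : ∀ i j, ∃ x : Localization W, emb W hW x = L0 i j := fun i j =>
    hlift _ (le_trans (Nat.le_add_right _ _) (hle i j))
  have hL' : ∀ i j, ∃ x : Localization W, emb W hW x = L0' i j := fun i j =>
    hlift _ (le_trans (Nat.le_add_left _ _) (hle i j))
  choose L1 hL1 using hL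
  choose L1' hL1' using hL'
  have m1 : (Matrix.of L1).map (emb W hW) = L0 := by ext i j; exact hL1 i j
  have m1' : (Matrix.of L1').map (emb W hW) = L0' := by ext i j; exact hL1' i j
  have inj : ∀ {α β : Type} (X Y : Matrix α β (Localization W)),
      X.map (emb W hW) = Y.map (emb W hW) → X = Y := by
    intro α β X Y hXY
    ext i j
    exact emb_injective W hW (congrFun (congrFun hXY i) j)
  have u1 : Matrix.of L1 * Matrix.of L1' = 1 := by
    apply inj
    rw [Matrix.map_mul, m1, m1', e1, Matrix.map_one _ (map_zero _) (map_one _)]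
  have u2 : Matrix.of L1' * Matrix.of L1 = 1 := by
    apply inj
    rw [Matrix.map_mul, m1, m1', e2, Matrix.map_one _ (map_zero _) (map_one _)]
  refine ⟨⟨Matrix.of L1, Matrix.of L1', u1, u2⟩, 1,
    Finset.univ.image (fun i : Fin (finrank K N) => e (Sum.inl i)), Finset.univ, ?_, ?_⟩
  · intro i hi j _
    obtain ⟨i', _, rfl⟩ := Finset.mem_image.1 hi
    unfold augment
    apply emb_injective W hW
    rw [map_zero, Units.val_one, Matrix.mul_one]
    have h1 : (Matrix.of L1 * (fromBlocks M 0 0 1 : Matrix (Fin a ⊕ Fin 0) (Fin b ⊕ Fin 0)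
        (MvPolynomial σ F)).map (algebraMap _ (Localization W))).map (emb W hW) = L0 * M0 := by
      rw [Matrix.map_mul, m1, Matrix.map_map, hM0]
      congr 1
      ext i j
      rcases i with i | i
      · rcases j with j | j
        · simp only [Matrix.map_apply, Function.comp_apply, fromBlocks_apply₁₁]
          exact emb_algebraMap W hW _
        · exact Fin.elim0 j
      · exact Fin.elim0 i
    have h2 := congrFun (congrFun h1 (e (Sum.inl i'))) j
    rw [hrow i' j] at h2
    exact h2
  · rw [Finset.card_image_of_injective _ (fun x y hxy => by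
      have := e.injective hxy
      exact Sum.inl_injective this), Finset.card_univ, Finset.card_univ]
    simp only [Fintype.card_sum, Fintype.card_fin] at hN ⊢
    omega

end poly

section odd

/-- The generic alternating matrix over the integers has determinant zero for odd order. -/
theorem det_genSkew_int (m : ℕ) : (genSkew ℤ (2 * m + 1)).det = 0 := by
  have h1 : (genSkew ℤ (2 * m + 1))ᵀ = -genSkew ℤ (2 * m + 1) := by
    ext1 i j
    simp only [transpose_apply, genSkew, of_apply, Matrix.neg_apply]
    rcases lt_trichotomy i j with h | h | h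
    · rw [dif_neg (not_lt.2 h.le), dif_pos h, dif_pos h]
    · subst h; simp
    · rw [dif_pos h, dif_neg (not_lt.2 h.le), dif_pos h, neg_neg]
  have h2 := congrArg Matrix.det h1
  rw [det_transpose, det_neg, Fintype.card_fin, pow_succ, pow_mul] at h2
  have h3 : (2 : MvPolynomial (Prs (2 * m + 1)) ℤ) * (genSkew ℤ (2 * m + 1)).det = 0 := by
    have : ((-1 : MvPolynomial (Prs (2 * m + 1)) ℤ) ^ 2) ^ m = 1 := by norm_num
    rw [this] at h2
    linear_combination h2
  rcases mul_eq_zero.1 h3 with h | h
  · exact absurd h two_ne_zero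
  · exact h

theorem det_genSkew (F : Type*) [Field F] (m : ℕ) : (genSkew F (2 * m + 1)).det = 0 := by
  have h1 : genSkew F (2 * m + 1) =
      (genSkew ℤ (2 * m + 1)).map (MvPolynomial.map (Int.castRingHom F)) := by
    ext1 i j
    simp only [genSkew, of_apply, Matrix.map_apply]
    split_ifs <;> simp
  rw [h1]
  have h2 := (MvPolynomial.map (σ := Prs (2 * m + 1)) (Int.castRingHom F)).map_det
    (genSkew ℤ (2 * m + 1))
  rw [det_genSkew_int, map_zero] at h2
  exact h2.symm

/-- The generic alternating matrix of odd order is singular. -/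
theorem rank_genSkew (F : Type*) [Field F] (m : ℕ) :
    polyRank (genSkew F (2 * m + 1)) < 2 * m + 1 := by
  unfold polyRank
  set K := FractionRing (MvPolynomial (Prs (2 * m + 1)) F) with hK
  set A := (genSkew F (2 * m + 1)).map (algebraMap _ K) with hA
  have hdet : A.det = 0 := by
    have := (algebraMap (MvPolynomial (Prs (2 * m + 1)) F) K).map_det (genSkew F (2 * m + 1))
    rw [det_genSkew, map_zero] at this
    exact this.symm
  obtain ⟨v, hv0, hv⟩ := Matrix.exists_mulVec_eq_zero_iff.2 hdet
  have h1 := rank_add_ker A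
  have h2 : 0 < finrank K (LinearMap.ker A.mulVecLin) := by
    rw [finrank_pos_iff_exists_ne_zero]
    exact ⟨⟨v, hv⟩, fun h => hv0 (congrArg Subtype.val h)⟩
  rw [Fintype.card_fin] at h1
  omega

end odd

end Pool.Agent.V7H90.RK
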