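import Pool.Agent.V7H90.RK.Cert
import Pool.Agent.V7H90.RK.Sound

/-!
Assembly: the lower bounds on the denominators of certificates for the generic alternating matrix
of odd order.
-/

open MvPolynomial Matrix

namespace Pool.Agent.V7H90.RK

universe u

variable {F : Type u} [Field F]

theorem generic_iff {n r : ℕ} (g : MvPolynomial (Prs n) F) :
    Van r g ↔ aeval (R := F) (wedgeSum (fun t i => (X (false, t, i) :
      MvPolynomial (Bool × Fin r × Fin n) F)) (fun t i => X (true, t, i))) g = 0 :=
  ⟨fun h => h _ _ _, van_of_generic⟩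

/-- The polynomials vanishing on the alternating matrices of rank at most `2 r` form a prime
ideal. -/
theorem van_mul {n r : ℕ} {g h : MvPolynomial (Prs n) F} (hgh : Van r (g * h)) :
    Van r g ∨ Van r h := by
  rw [generic_iff, map_mul, mul_eq_zero] at hgh
  rcases hgh with h1 | h1
  · exact Or.inl (van_of_generic h1)
  · exact Or.inr (van_of_generic h1)

theorem van_closure {n r : ℕ} {S : Set (MvPolynomial (Prs n) F)} {g : MvPolynomial (Prs n) F}
    (hg : g ∈ Submonoid.closure S) (hv : Van r g) : ∃ g0 ∈ S, Van r g0 := by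
  induction hg using Submonoid.closure_induction with
  | mem x hx => exact ⟨x, hx, hv⟩
  | one =>
    have h1 := hv F 0 0
    rw [map_one] at h1
    exact absurd h1 one_ne_zero
  | mul x y _ _ hx hy =>
    rcases van_mul hv with h | h
    · exact hx h
    · exact hy h

/-- Every certificate for the singularity of the generic alternating matrix of order
`2 m + 1` has a denominator that vanishes on all alternating matrices of rank at most
`2 m - 2`. -/
theorem cert_obstruction {m k : ℕ} (hm : 1 ≤ m) (W : Submonoid (MvPolynomial (Prs (2 * m + 1)) F))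
    (h : HasCert W k (2 * m + 1) (genSkew F (2 * m + 1))) : ∃ g ∈ W, Van (m - 1) g := by
  by_contra hcon
  push Not at hcon
  set P := MvPolynomial (Bool × Fin (m - 1) × Fin (2 * m + 1)) F with hP
  refine obstruction (K := FractionRing P) (r := m - 1) (by omega) W
    (fun t i => algebraMap P _ (X (false, t, i))) (fun t i => algebraMap P _ (X (true, t, i)))
    ?_ h
  intro g hg h0
  apply hcon g hg
  apply van_of_generic
  apply IsFractionRing.injective P (FractionRing P)
  rw [map_zero, ← h0]
  have h3 : (IsScalarTower.toAlgHom F P (FractionRing P)).comp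
      (aeval (R := F) (wedgeSum (fun t i => (X (false, t, i) : P)) (fun t i => X (true, t, i)))) =
      aeval (R := F) (wedgeSum (fun t i => algebraMap P (FractionRing P) (X (false, t, i)))
        (fun t i => algebraMap P (FractionRing P) (X (true, t, i)))) := by
    apply MvPolynomial.algHom_ext
    intro p
    simp [wedgeSum]
  have h4 := DFunLike.congr_fun h3 g
  exact h4

theorem sparse_bound {m k s : ℕ} (hm : 1 ≤ m)
    (h : HasCert (sparseDen F (Prs (2 * m + 1)) s) k (2 * m + 1) (genSkew F (2 * m + 1))) :
    2 ^ (m - 1) ≤ s := by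
  obtain ⟨g, hg, hv⟩ := cert_obstruction hm _ h
  obtain ⟨g0, ⟨h0, h1⟩, hv0⟩ := van_closure hg hv
  exact (van_bound _ _ g0 h0 hv0).1.trans h1

theorem degree_bound {m k d : ℕ} (hm : 1 ≤ m)
    (h : HasCert (degreeDen F (Prs (2 * m + 1)) d) k (2 * m + 1) (genSkew F (2 * m + 1))) :
    m ≤ d := by
  obtain ⟨g, hg, hv⟩ := cert_obstruction hm _ h
  obtain ⟨g0, ⟨h0, h1⟩, hv0⟩ := van_closure hg hv
  have := (van_bound _ _ g0 h0 hv0).2.trans h1
  omega

end Pool.Agent.V7H90.RK
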