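import Pool.Agent.V7H90.RK.Defs

/-!
Nonzero polynomials vanishing on the alternating matrices of rank at most `2 r` have at least `2^r`
monomials and degree at least `r + 1`.
-/

open MvPolynomial Matrix

namespace Pool.Agent.V7H90.RK

section split

variable {F α β : Type*} [CommRing F]

theorem coeff_coeff_sum (p : MvPolynomial (α ⊕ β) F)
    (a : α →₀ ℕ) (b : β →₀ ℕ) :
    coeff b (coeff a (sumAlgEquiv F α β p)) = coeff (a.sumElim b) p := by
  classical
  induction p using MvPolynomial.induction_on' with
  | monomial m r =>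
    simp only [sumAlgEquiv, monomial, coeff]
    simp
    rw [Finsupp.single_apply, Finsupp.single_apply]
    by_cases h : m = a.sumElim b
    · subst h
      have h1 : Finsupp.comapDomain Sum.inl (a.sumElim b) Sum.inl_injective.injOn = a := by
        ext x; simp
      have h2 : Finsupp.comapDomain Sum.inr (a.sumElim b) Sum.inr_injective.injOn = b := by
        ext x; simp
      rw [if_pos h1, if_pos rfl, h2]
      simp
    · rw [if_neg h]
      split_ifs with h1
      · have h2 : Finsupp.comapDomain Sum.inr m Sum.inr_injective.injOn ≠ b := by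
          intro h2
          apply h
          subst h1 h2
          ext x
          rcases x with x | x <;> simp
        simp [h2]
      · simp
  | add p q hp hq => simp [hp, hq]

/-- The supports of the coefficients add up. -/
theorem sum_card_le (p : MvPolynomial (α ⊕ β) F) (A : Finset (α →₀ ℕ)) :
    ∑ a ∈ A, (coeff a (sumAlgEquiv F α β p)).support.card ≤ p.support.card := by
  classical
  rw [← Finset.card_sigma]
  apply Finset.card_le_card_of_injOn (fun x => x.1.sumElim x.2)
  · rintro ⟨a, b⟩ h
    simp only [Finset.coe_sigma, Set.mem_sigma_iff, Finset.mem_coe, mem_support_iff] at h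
    simp only [Finset.mem_coe, mem_support_iff]
    rw [← coeff_coeff_sum]
    exact h.2
  · rintro ⟨a, b⟩ _ ⟨a', b'⟩ _ h
    simp only at h
    have h1 : a = a' := by
      ext x
      have := DFunLike.congr_fun h (Sum.inl x)
      simpa using this
    have h2 : b = b' := by
      ext x
      have := DFunLike.congr_fun h (Sum.inr x)
      simpa using this
    subst h1 h2
    rfl

/-- The degree of a coefficient. -/
theorem degree_coeff_le (p : MvPolynomial (α ⊕ β) F) (a : α →₀ ℕ)
    (h : coeff a (sumAlgEquiv F α β p) ≠ 0) :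
    (a.sum fun _ e => e) + (coeff a (sumAlgEquiv F α β p)).totalDegree ≤ p.totalDegree := by
  classical
  obtain ⟨b, hb, hb'⟩ := Finset.exists_mem_eq_sup _ (support_nonempty.2 h)
    (fun b : β →₀ ℕ => b.sum fun _ e => e)
  have hb'' : (coeff a (sumAlgEquiv F α β p)).totalDegree = b.sum fun _ e => e := hb'
  rw [hb'']
  have hm : a.sumElim b ∈ p.support := by
    rw [mem_support_iff, ← coeff_coeff_sum]
    exact mem_support_iff.1 hb
  have := le_totalDegree hm
  refine le_trans (le_of_eq ?_) this
  rw [Finsupp.sum_sumElim]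
  rfl

/-- Evaluation in two steps. -/
theorem aeval_sum {S : Type*} [CommRing S] [Algebra F S] (w : α ⊕ β → S)
    (p : MvPolynomial (α ⊕ β) F) :
    aeval w p = eval₂ (aeval (R := F) (w ∘ Sum.inr)).toRingHom (w ∘ Sum.inl)
      (sumAlgEquiv F α β p) := by
  induction p using MvPolynomial.induction_on with
  | C r => simp
  | add p q hp hq => simp [hp, hq]
  | mul_X p i hp => rcases i with i | i <;> simp [hp]

end split

section wedge

variable {F : Type*} [CommRing F]

/-- Row `0` and the other pairs. -/
def splitFun (n : ℕ) : Fin n ⊕ Prs n → Prs (n + 1) :=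
  Sum.elim (fun j => ⟨(0, j.succ), Fin.succ_pos j⟩)
    (fun p => ⟨(p.1.1.succ, p.1.2.succ), Fin.succ_lt_succ_iff.2 p.2⟩)

theorem splitFun_bij (n : ℕ) : Function.Bijective (splitFun n) := by
  constructor
  · rintro (i | ⟨⟨i, i'⟩, hi⟩) (j | ⟨⟨j, j'⟩, hj⟩) h
    · simp only [splitFun, Sum.elim_inl, Subtype.mk.injEq, Prod.mk.injEq, Fin.succ_inj,
        true_and] at h
      rw [h]
    · simp only [splitFun, Sum.elim_inl, Sum.elim_inr, Subtype.mk.injEq, Prod.mk.injEq] at h
      exact absurd h.1.symm (Fin.succ_ne_zero _)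
    · simp only [splitFun, Sum.elim_inl, Sum.elim_inr, Subtype.mk.injEq, Prod.mk.injEq] at h
      exact absurd h.1 (Fin.succ_ne_zero _)
    · simp only [splitFun, Sum.elim_inr, Subtype.mk.injEq, Prod.mk.injEq, Fin.succ_inj] at h
      simp [h.1, h.2]
  · rintro ⟨⟨i, j⟩, h⟩
    have hj : j ≠ 0 := fun h0 => by subst h0; exact absurd h (Fin.not_lt_zero i)
    obtain ⟨j', rfl⟩ := Fin.exists_succ_eq.2 hj
    by_cases hi : i = 0
    · subst hi
      exact ⟨Sum.inl j', rfl⟩
    · obtain ⟨i', rfl⟩ := Fin.exists_succ_eq.2 hi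
      exact ⟨Sum.inr ⟨(i', j'), Fin.succ_lt_succ_iff.1 h⟩, rfl⟩

/-- The index equivalence. -/
noncomputable def splitEquiv (n : ℕ) : Fin n ⊕ Prs n ≃ Prs (n + 1) :=
  Equiv.ofBijective _ (splitFun_bij n)

theorem map_wedgeSum {S S' : Type*} [CommRing S] [CommRing S'] (f : S →+* S') {n r : ℕ}
    (c d : Fin r → Fin n → S) (p : Prs n) :
    f (wedgeSum c d p) = wedgeSum (fun t i => f (c t i)) (fun t i => f (d t i)) p := by
  simp [wedgeSum]

/-- The polynomial `g` seen as a polynomial in the variables of row `0`. -/
noncomputable def rowPoly {n : ℕ} (g : MvPolynomial (Prs (n + 1)) F) :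
    MvPolynomial (Fin n) (MvPolynomial (Prs n) F) :=
  sumAlgEquiv F (Fin n) (Prs n) (rename (splitEquiv n).symm g)

theorem aeval_rowPoly {n : ℕ} {S : Type*} [CommRing S] [Algebra F S] (w : Prs (n + 1) → S)
    (g : MvPolynomial (Prs (n + 1)) F) :
    aeval w g = eval₂ (aeval (R := F) (fun p => w (splitFun n (Sum.inr p)))).toRingHom
      (fun j => w (splitFun n (Sum.inl j))) (rowPoly g) := by
  have h := aeval_sum (F := F) (w ∘ splitFun n) (rename (splitEquiv n).symm g)
  rw [aeval_rename] at h
  have h2 : (w ∘ splitFun n) ∘ (splitEquiv n).symm = w := by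
    funext p
    obtain ⟨q, rfl⟩ := (splitEquiv n).surjective p
    simp only [Function.comp_apply, Equiv.symm_apply_apply]
    rfl
  rw [h2] at h
  exact h

theorem rowPoly_ne_zero {n : ℕ} {g : MvPolynomial (Prs (n + 1)) F} (h : g ≠ 0) :
    rowPoly g ≠ 0 := by
  intro h0
  apply h
  have h1 : rename (splitEquiv n).symm g = 0 := by
    have := (sumAlgEquiv F (Fin n) (Prs n)).injective
    apply this
    rw [map_zero]
    exact h0
  apply rename_injective _ (splitEquiv n).symm.injective
  rw [h1, map_zero]

theorem rowPoly_card {n : ℕ} (g : MvPolynomial (Prs (n + 1)) F) (A : Finset (Fin n →₀ ℕ)) :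
    ∑ a ∈ A, (coeff a (rowPoly g)).support.card ≤ g.support.card := by
  classical
  refine (sum_card_le (rename (splitEquiv n).symm g) A).trans ?_
  rw [support_rename_of_injective (splitEquiv n).symm.injective]
  exact Finset.card_image_le

theorem rowPoly_degree {n : ℕ} (g : MvPolynomial (Prs (n + 1)) F) (a : Fin n →₀ ℕ)
    (h : coeff a (rowPoly g) ≠ 0) :
    (a.sum fun _ e => e) + (coeff a (rowPoly g)).totalDegree ≤ g.totalDegree := by
  refine (degree_coeff_le (rename (splitEquiv n).symm g) a h).trans ?_
  exact totalDegree_rename_le _ _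

end wedge

section van

universe u

variable {F : Type u} [Field F]

theorem van_coeff {n r : ℕ} {g : MvPolynomial (Prs (n + 1)) F} (hg : Van (r + 1) g)
    (e : Fin n →₀ ℕ) : Van r (coeff e (rowPoly g)) := by
  intro S _ _ c d
  set c' : Fin (r + 1) → Fin (n + 1) → MvPolynomial (Fin n) S :=
    Fin.cons (Fin.cons 1 0) (fun t => Fin.cons 0 (fun j => C (c t j))) with hc'
  set d' : Fin (r + 1) → Fin (n + 1) → MvPolynomial (Fin n) S :=
    Fin.cons (Fin.cons 0 (fun j => X j)) (fun t => Fin.cons 0 (fun j => C (d t j))) with hd'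
  have h0 := hg (MvPolynomial (Fin n) S) c' d'
  rw [aeval_rowPoly] at h0
  have h1 : (fun j => wedgeSum c' d' (splitFun n (Sum.inl j))) = X := by
    funext j
    simp [wedgeSum, splitFun, hc', hd', Fin.sum_univ_succ]
  have h2 : (aeval (R := F) (fun p => wedgeSum c' d' (splitFun n (Sum.inr p)))).toRingHom =
      (C : S →+* MvPolynomial (Fin n) S).comp (aeval (R := F) (wedgeSum c d)).toRingHom := by
    apply MvPolynomial.ringHom_ext
    · intro a
      simp [MvPolynomial.algebraMap_eq, IsScalarTower.algebraMap_apply F S (MvPolynomial (Fin n) S)]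
    · intro p
      simp [wedgeSum, splitFun, hc', hd', Fin.sum_univ_succ]
  rw [h1, h2] at h0
  have h5 : MvPolynomial.map (σ := Fin n) (aeval (R := F) (wedgeSum c d)).toRingHom =
      eval₂Hom (C.comp (aeval (R := F) (wedgeSum c d)).toRingHom) X := by
    apply MvPolynomial.ringHom_ext
    · intro a
      simp
    · intro i
      simp
  have h3 : MvPolynomial.map (aeval (R := F) (wedgeSum c d)).toRingHom (rowPoly g) = 0 := by
    rw [h5]
    exact h0
  have h4 := congrArg (coeff e) h3
  rw [coeff_map, coeff_zero] at h4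
  exact h4

theorem van_single {n r : ℕ} {g : MvPolynomial (Prs (n + 1)) F} (hg : Van (r + 1) g)
    (e : Fin n →₀ ℕ) (he : rowPoly g = monomial e (coeff e (rowPoly g))) :
    Van (r + 1) (coeff e (rowPoly g)) := by
  intro S _ _ c d
  set q := coeff e (rowPoly g) with hq
  set c' : Fin (r + 1) → Fin (n + 1) → MvPolynomial (Bool × Fin (r + 1) × Fin (n + 1)) F :=
    fun t i => X (false, t, i) with hc'
  set d' : Fin (r + 1) → Fin (n + 1) → MvPolynomial (Bool × Fin (r + 1) × Fin (n + 1)) F :=
    fun t i => X (true, t, i) with hd'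
  have h0 := hg (MvPolynomial (Bool × Fin (r + 1) × Fin (n + 1)) F) c' d'
  rw [aeval_rowPoly, he, eval₂_monomial, mul_eq_zero] at h0
  have hne : ¬ (e.prod fun j k => (wedgeSum c' d' (splitFun n (Sum.inl j))) ^ k) = 0 := by
    rw [Finsupp.prod, Finset.prod_eq_zero_iff]
    rintro ⟨j, _, hj⟩
    have hej : e j ≠ 0 := by
      intro h
      rw [h, pow_zero] at hj
      exact one_ne_zero hj
    have hj' := (pow_eq_zero_iff hej).1 hj
    have h5 := congrArg (aeval (R := F) (fun x : Bool × Fin (r + 1) × Fin (n + 1) =>
      if x = (false, 0, 0) then (1 : F) else if x = (true, 0, j.succ) then 1 else 0)) hj'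
    rw [map_zero] at h5
    have h6 := map_wedgeSum (aeval (R := F) (fun x : Bool × Fin (r + 1) × Fin (n + 1) =>
      if x = (false, 0, 0) then (1 : F) else if x = (true, 0, j.succ) then 1 else 0)).toRingHom
      c' d' (splitFun n (Sum.inl j))
    simp only [AlgHom.toRingHom_eq_coe, RingHom.coe_coe] at h6
    rw [h5] at h6
    simp [wedgeSum, splitFun, hc', hd', Fin.sum_univ_succ] at h6
  have h1 := h0.resolve_right hne
  -- specialise
  set f : MvPolynomial (Bool × Fin (r + 1) × Fin (n + 1)) F →ₐ[F] S :=
    aeval (fun x => (Fin.cons 0 (fun i => if x.1 = true then d x.2.1 i else c x.2.1 i) :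
      Fin (n + 1) → S) x.2.2) with hf
  have h2 := congrArg f h1
  rw [map_zero] at h2
  have h3 : f.comp (aeval (R := F) (fun p => wedgeSum c' d' (splitFun n (Sum.inr p)))) =
      aeval (R := F) (wedgeSum c d) := by
    apply MvPolynomial.algHom_ext
    intro p
    simp [wedgeSum, splitFun, hc', hd', hf]
  have h4 := DFunLike.congr_fun h3 q
  rw [← h4]
  exact h2

theorem van_degree_pos {n r : ℕ} {g : MvPolynomial (Prs n) F} (h0 : g ≠ 0) (hg : Van r g) :
    1 ≤ g.totalDegree := by
  by_contra h
  have h1 : g.totalDegree = 0 := by omega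
  rw [totalDegree_eq_zero_iff_eq_C] at h1
  apply h0
  have h2 := hg F 0 0
  rw [h1, aeval_C] at h2
  have h3 : coeff 0 g = 0 := h2
  rw [h1, h3, C_0]

theorem van_bound : ∀ (n r : ℕ) (g : MvPolynomial (Prs n) F), g ≠ 0 → Van r g →
    2 ^ r ≤ g.support.card ∧ r + 1 ≤ g.totalDegree := by
  classical
  intro n
  induction n with
  | zero =>
    intro r g h0 hg
    have h1 := van_degree_pos h0 hg
    have : IsEmpty (Prs 0) := ⟨fun p => Fin.elim0 p.1.1⟩
    rw [eq_C_of_isEmpty g, totalDegree_C] at h1
    omega
  | succ n ih =>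
    intro r g h0 hg
    rcases r with _ | r
    · refine ⟨?_, van_degree_pos h0 hg⟩
      rw [pow_zero]
      exact Finset.card_pos.2 (support_nonempty.2 h0)
    · have hG := rowPoly_ne_zero h0
      obtain ⟨e, he⟩ := support_nonempty.2 hG
      have he0 : coeff e (rowPoly g) ≠ 0 := mem_support_iff.1 he
      by_cases hs : ∀ e' ∈ (rowPoly g).support, e' = e
      · have hmon : rowPoly g = monomial e (coeff e (rowPoly g)) := by
          ext1 a
          rw [coeff_monomial]
          split_ifs with h
          · rw [h]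
          · by_contra hne
            exact h (hs a (mem_support_iff.2 hne)).symm
        obtain ⟨i1, i2⟩ := ih (r + 1) _ he0 (van_single hg e hmon)
        have j1 := rowPoly_card g {e}
        rw [Finset.sum_singleton] at j1
        have j2 := rowPoly_degree g e he0
        exact ⟨i1.trans j1, by omega⟩
      · push Not at hs
        obtain ⟨e', he', hee⟩ := hs
        have he'0 : coeff e' (rowPoly g) ≠ 0 := mem_support_iff.1 he'
        obtain ⟨i1, i2⟩ := ih r _ he0 (van_coeff hg e)
        obtain ⟨i1', i2'⟩ := ih r _ he'0 (van_coeff hg e')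
        have j1 := rowPoly_card g {e, e'}
        rw [Finset.sum_pair hee.symm] at j1
        have j2 := rowPoly_degree g e he0
        have j2' := rowPoly_degree g e' he'0
        refine ⟨by rw [pow_succ]; omega, ?_⟩
        have key : 1 ≤ (e.sum fun _ k => k) ∨ 1 ≤ (e'.sum fun _ k => k) := by
          by_contra hcon
          push Not at hcon
          have z : ∀ a : Fin n →₀ ℕ, (a.sum fun _ k => k) < 1 → a = 0 := by
            intro a ha
            ext x
            by_contra hx
            have : a x ≤ a.sum fun _ k => k :=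
              Finset.single_le_sum (f := fun x => a x) (fun _ _ => Nat.zero_le _)
                (Finsupp.mem_support_iff.2 hx)
            simp only [Finsupp.coe_zero, Pi.zero_apply] at hx
            omega
          exact hee ((z e' hcon.2).trans (z e hcon.1).symm)
        omega

end van

end Pool.Agent.V7H90.RK
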